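import Pool.Agent.Results.MP_a247fa_nt.CriticalOrbitsExplicit
import Pool.Agent.W2helper30.MT.Fam

/-!
# The critical orbits of Chamberland's map which start near the powers of almost all real numbers, and near the members of
almost all nonlinear families

`f` is Chamberland's real extension of the Collatz map and `J n = [n, n + 5/(6(2n+1))]`, which for odd `n` contains the
critical point of `f` in `(n, n + 1/2)`. For almost all `θ > 1`: for all but finitely many `n`, for ALL positive integers `j`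
with `|j - θ ^ n| ≤ 1`, an iterate of `f` carries `J j` into some `J m` with `m ≤ n ^ 17`. So the critical points which are
above the odd integers near `θ ^ n` come down from an exponential size in `n` to a polynomial size.

Method: the exceptional sets have a linear counting function with a small factor (`CriticalOrbitsExplicit`, starting file);
the sum of the reciprocals of their members over a range is bounded by the logarithm of the quotient of the ends, and the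
measure of the parameters for which a member of the family is near one of them is bounded by this sum
(`Pool.Agent.W2helper30.MT`).
-/

set_option autoImplicit false

namespace Pool.Agent.Results.MP_a247fa_nt.CriticalOrbitsNearPowers

open MeasureTheory Pool.Agent.H934R2.Ch Filter

/-- The interval `J n = [n, n + 5/(6(2n+1))]`. -/
def J (n : ℕ) : Set ℝ := Set.Icc (n : ℝ) (n + 5 / (6 * (2 * (n : ℝ) + 1)))

/-- The critical orbit above `j` falls to the height `y`: (1) an iterate of `f` carries the interval `J j` into `J m` for some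
`1 ≤ m ≤ y`; (2) if `j` is odd then there is exactly one critical point of `f` in `(j, j + 1/2)`, some iterate of it is at most
`y + 5/18`, and every attracting periodic point which attracts it attracts a point of `J m` for some `1 ≤ m ≤ y`. -/
def Falls (j : ℕ) (y : ℝ) : Prop :=
  (∃ m k : ℕ, 1 ≤ m ∧ (m : ℝ) ≤ y ∧ ∀ x ∈ J j, f^[k] x ∈ J m) ∧
  (j % 2 = 1 → ∃! x : ℝ, (j : ℝ) < x ∧ x < j + 1 / 2 ∧ deriv f x = 0) ∧
  (j % 2 = 1 → ∀ x : ℝ, (j : ℝ) < x → x < j + 1 / 2 → deriv f x = 0 →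
    (∃ k : ℕ, f^[k] x ≤ y + 5 / 18) ∧
    ∀ z : ℝ, AttrPt z → Attracts z x → ∃ m : ℕ, 1 ≤ m ∧ (m : ℝ) ≤ y ∧ ∃ w ∈ J m, Attracts z w)

/-- The positive functions `g n` on the set `I` have comparable logarithmic slopes: on every compact interval in `I`, for
all large `n`, `A n |t - s| ≤ |log (g n t) - log (g n s)| ≤ B A n |t - s|` with some `A n ≥ A₀ > 0`, and a constant `B`. -/
def Regular (I : Set ℝ) (g : ℕ → ℝ → ℝ) : Prop :=
  ∀ a b : ℝ, a < b → Set.Icc a b ⊆ I → ∃ (A₀ B : ℝ) (A : ℕ → ℝ) (n₀ : ℕ), 0 < A₀ ∧ 0 ≤ B ∧ ∀ n : ℕ, n₀ ≤ n →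
    A₀ ≤ A n ∧ (∀ t, a ≤ t → t ≤ b → 0 < g n t) ∧
    ∀ s t, a ≤ s → s ≤ t → t ≤ b → A n * (t - s) ≤ |Real.log (g n t) - Real.log (g n s)| ∧
      |Real.log (g n t) - Real.log (g n s)| ≤ B * A n * (t - s)

/-- the set of the exceptions has a small density on all scales -/
lemma falls_count : ∃ C : ℝ, 0 < C ∧ ∀ X y : ℝ, 1 ≤ X → 1 ≤ y →
    ({j : ℕ | j ∈ {j : ℕ | 1 ≤ j ∧ ¬ Falls j y} ∧ (j : ℝ) ≤ X}.ncard : ℝ) ≤ (C * y ^ (-(6 / 100) : ℝ)) * X := by
  obtain ⟨a, _, _, _, hex, _, C, hC, hcount⟩ := CriticalOrbitsExplicit.result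
  refine ⟨3 * C, by positivity, fun X y hX hy => ?_⟩
  have hb : ∀ P : Set ℕ, (∀ x ∈ P, (x : ℝ) ≤ X) → P.Finite := by
    intro P hP
    refine (Set.finite_Iic ⌊X⌋₊).subset ?_
    intro k hk
    exact Nat.le_floor (hP k hk)
  obtain ⟨h1, h2, h3, -⟩ := hcount X y hX hy
  obtain ⟨A1, hA1⟩ : ∃ A1, A1 = {n' : ℕ | 1 ≤ n' ∧ (n' : ℝ) ≤ X ∧
          ¬ ∃ m k : ℕ, 1 ≤ m ∧ (m : ℝ) ≤ y ∧ ∀ x ∈ CriticalOrbitsExplicit.J n',
            f^[k] x ∈ CriticalOrbitsExplicit.J m} := ⟨_, rfl⟩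
  obtain ⟨A2, hA2⟩ : ∃ A2, A2 = {n' : ℕ | n' % 2 = 1 ∧ (n' : ℝ) ≤ X ∧
          ∃ x : ℝ, (n' : ℝ) < x ∧ x < n' + 1 / 2 ∧ deriv f x = 0 ∧
            ∀ k : ℕ, y + 5 / 18 < f^[k] x} := ⟨_, rfl⟩
  obtain ⟨A3, hA3⟩ : ∃ A3, A3 = {n' : ℕ | n' % 2 = 1 ∧ (n' : ℝ) ≤ X ∧
          ∃ x : ℝ, (n' : ℝ) < x ∧ x < n' + 1 / 2 ∧ deriv f x = 0 ∧
            ∃ z : ℝ, AttrPt z ∧ Attracts z x ∧
              ∀ m : ℕ, 1 ≤ m → (m : ℝ) ≤ y → ∀ w ∈ CriticalOrbitsExplicit.J m, ¬ Attracts z w} := ⟨_, rfl⟩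
  rw [← hA1] at h1
  rw [← hA2] at h2
  rw [← hA3] at h3
  have hf1 : A1.Finite := hb A1 (fun x hx => by rw [hA1] at hx; exact hx.2.1)
  have hf2 : A2.Finite := hb A2 (fun x hx => by rw [hA2] at hx; exact hx.2.1)
  have hf3 : A3.Finite := hb A3 (fun x hx => by rw [hA3] at hx; exact hx.2.1)
  have hsub : {j : ℕ | j ∈ {j : ℕ | 1 ≤ j ∧ ¬ Falls j y} ∧ (j : ℝ) ≤ X} ⊆ (A1 ∪ A2) ∪ A3 := by
    rintro j ⟨⟨hj1, hj⟩, hjX⟩
    by_contra hcon
    rw [Set.mem_union, Set.mem_union, not_or, not_or, hA1, hA2, hA3] at hcon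
    obtain ⟨⟨c1, c2⟩, c3⟩ := hcon
    apply hj
    refine ⟨?_, fun hodd => hex j hodd, fun hodd x hx1 hx2 hx3 => ⟨?_, fun z hz hzx => ?_⟩⟩
    · by_contra h
      exact c1 ⟨hj1, hjX, h⟩
    · by_contra h
      push Not at h
      exact c2 ⟨hodd, hjX, x, hx1, hx2, hx3, h⟩
    · by_contra h
      push Not at h
      exact c3 ⟨hodd, hjX, x, hx1, hx2, hx3, z, hz, hzx, h⟩
  have h4 : {j : ℕ | j ∈ {j : ℕ | 1 ≤ j ∧ ¬ Falls j y} ∧ (j : ℝ) ≤ X}.ncard ≤ A1.ncard + A2.ncard + A3.ncard :=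
    (Set.ncard_le_ncard hsub ((hf1.union hf2).union hf3)).trans
      ((Set.ncard_union_le _ _).trans (Nat.add_le_add_right (Set.ncard_union_le _ _) _))
  have h5 : ({j : ℕ | j ∈ {j : ℕ | 1 ≤ j ∧ ¬ Falls j y} ∧ (j : ℝ) ≤ X}.ncard : ℝ) ≤
      C * X / y ^ (6 / 100 : ℝ) + C * X / y ^ (6 / 100 : ℝ) + C * X / y ^ (6 / 100 : ℝ) := by
    refine le_trans ?_ (add_le_add (add_le_add h1 h2) h3)
    exact_mod_cast h4
  refine h5.trans (le_of_eq ?_)
  rw [Real.rpow_neg (by linarith)]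
  field_simp
  ring

/-- the general theorem -/
theorem general {I : Set ℝ} (hI : IsOpen I) {g : ℕ → ℝ → ℝ} (hg : Regular I g) (y L : ℕ → ℝ) (hy : ∀ n, 1 ≤ y n)
    (hL : ∀ n, 0 ≤ L n) (hsum : Summable (fun n => L n * (y n) ^ (-(6 / 100) : ℝ))) :
    ∃ N : Set ℝ, volume N = 0 ∧ ∀ t ∈ I, t ∉ N → ∃ n₀ : ℕ, ∀ n : ℕ, n₀ ≤ n → ∀ j : ℕ, 1 ≤ j →
      |(j : ℝ) - g n t| ≤ L n → |(j : ℝ) - g n t| ≤ g n t / 3 → Falls j (y n) := by
  obtain ⟨C, hC, hcount⟩ := falls_count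
  obtain ⟨N, hN, hN2⟩ := Pool.Agent.W2helper30.MT.ae_family hI (g := g) hg
    (fun n => {j : ℕ | 1 ≤ j ∧ ¬ Falls j (y n)}) L (fun n => C * (y n) ^ (-(6 / 100) : ℝ)) hL
    (fun n => by
      have := hy n
      positivity) (fun n j hj => hj.1) (fun n X hX => hcount X (y n) hX (hy n)) (by
      have h1 : (fun n => L n * (C * (y n) ^ (-(6 / 100) : ℝ))) =
          fun n => C * (L n * (y n) ^ (-(6 / 100) : ℝ)) := by
        funext n
        ring
      rw [h1]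
      exact hsum.mul_left _)
  refine ⟨N, hN, fun t ht htN => ?_⟩
  obtain ⟨n₀, hn⟩ := hN2 t ht htN
  refine ⟨n₀, fun n hn1 j hj hw1 hw2 => ?_⟩
  by_contra hcon
  exact absurd (hn n hn1 j ⟨hj, hcon⟩ hw2) (not_lt.2 hw1)

/-- **(1)** Let `g_n` be positive functions on an open set `I` of real numbers with comparable logarithmic slopes (`Regular`),
and let `y_n ≥ 1` and `L_n ≥ 0` be sequences with `∑ L_n y_n ^ (-6/100) < ∞`. For almost every `t` in `I`, for all but finitely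
many `n`, for EVERY positive integer `j` with `|j - g_n(t)| ≤ L_n` and `|j - g_n(t)| ≤ g_n(t) / 3`: an iterate of `f` carries
the interval `J j` into some `J m` with `1 ≤ m ≤ y_n`; if `j` is odd, some iterate of the critical point of `f` in
`(j, j + 1/2)` is at most `y_n + 5/18`, and every attracting periodic point which attracts this critical point attracts a point
of some `J m`, `1 ≤ m ≤ y_n`.

**(2)** The families `c_n t ^ (s_n)` on `(0, ∞)` and `c_n exp(s_n t)` on the real line, with arbitrary `c_n > 0` and arbitrary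
real `s_n` with `|s_n|` bounded below by a positive number, are regular.

**(3)** In particular, for almost every `θ > 1`, for all but finitely many `n`, this holds for all the positive integers `j`
with `|j - θ ^ n| ≤ 1`, with `y_n = n ^ 17`. -/
theorem result :
    (∀ I : Set ℝ, IsOpen I → ∀ g : ℕ → ℝ → ℝ, Regular I g → ∀ y L : ℕ → ℝ, (∀ n, 1 ≤ y n) → (∀ n, 0 ≤ L n) →
      Summable (fun n => L n * (y n) ^ (-(6 / 100) : ℝ)) →
      ∃ N : Set ℝ, volume N = 0 ∧ ∀ t ∈ I, t ∉ N → ∃ n₀ : ℕ, ∀ n : ℕ, n₀ ≤ n → ∀ j : ℕ, 1 ≤ j →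
        |(j : ℝ) - g n t| ≤ L n → |(j : ℝ) - g n t| ≤ g n t / 3 → Falls j (y n)) ∧
    (∀ (c s : ℕ → ℝ) (σ : ℝ) (n₀ : ℕ), (∀ n, 0 < c n) → 0 < σ → (∀ n, n₀ ≤ n → σ ≤ |s n|) →
      Regular (Set.Ioi 0) (fun n t => c n * t ^ (s n)) ∧ Regular Set.univ (fun n t => c n * Real.exp (s n * t))) ∧
    (∃ N : Set ℝ, volume N = 0 ∧ ∀ θ : ℝ, 1 < θ → θ ∉ N → ∃ n₀ : ℕ, ∀ n : ℕ, n₀ ≤ n → ∀ j : ℕ, 1 ≤ j →
      |(j : ℝ) - θ ^ n| ≤ 1 → Falls j ((n : ℝ) ^ 17)) := by
  refine ⟨fun I hI g hg y L hy hL hsum => general hI hg y L hy hL hsum,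
    fun c s σ n₀ hc hσ hs => ⟨Pool.Agent.W2helper30.MT.reg_rpow c s hc hσ hs,
      Pool.Agent.W2helper30.MT.reg_exp c s hc hσ hs⟩, ?_⟩
  have hsum : Summable (fun n : ℕ => (1 : ℝ) * (max 1 (n : ℝ) ^ 17) ^ (-(6 / 100) : ℝ)) := by
    have h1 : Summable (fun n : ℕ => (n : ℝ) ^ (-(102 / 100) : ℝ)) := by
      rw [Real.summable_nat_rpow]
      norm_num
    rw [← summable_nat_add_iff 1] at h1 ⊢
    refine h1.congr fun n => ?_
    have h2 : (1 : ℝ) ≤ ((n + 1 : ℕ) : ℝ) := by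
      push_cast
      have : (0 : ℝ) ≤ n := Nat.cast_nonneg n
      linarith
    rw [one_mul, max_eq_right h2, ← Real.rpow_natCast, ← Real.rpow_mul (by linarith)]
    norm_num
  obtain ⟨N, hN, hN2⟩ := general isOpen_Ioi Pool.Agent.W2helper30.MT.reg_pow
    (fun n : ℕ => max 1 (n : ℝ) ^ 17) (fun _ => 1) (fun n => one_le_pow₀ (le_max_left _ _)) (fun _ => zero_le_one) hsum
  refine ⟨N, hN, fun θ hθ hθN => ?_⟩
  obtain ⟨n₀, hn⟩ := hN2 θ hθ hθN
  have h3 := (tendsto_pow_atTop_atTop_of_one_lt hθ).eventually_ge_atTop 3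
  obtain ⟨n₁, hn₁⟩ := eventually_atTop.1 h3
  refine ⟨n₀ + n₁ + 1, fun n hn2 j hj hw => ?_⟩
  have h4 := hn n (by omega) j hj hw (hw.trans (by
    have := hn₁ n (by omega)
    linarith))
  have h5 : (1 : ℝ) ≤ n := by exact_mod_cast (by omega : 1 ≤ n)
  simp only [max_eq_right h5] at h4
  exact h4

end Pool.Agent.Results.MP_a247fa_nt.CriticalOrbitsNearPowers
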