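import Pool.Agent.W2helper41.CH.Crit
import Pool.Agent.W2helper41.CH.Unc
import Pool.Agent.H499R2.LT.R6

/-!
Chamberland's real extension `f` of the `3x+1` map `T`: the exact proportion of the critical points (and of
any sequence of points at a convergent scaled distance from the integers) which follow the orbit of the
nearest integer for all time.

Idea: in the scaled deviation `t = π² (2n+1) (x-n) / 4` a step from a large even `n` is `t ↦ (t+t²)/4`, from a
large odd `n` it is `t ↦ (9t-3t²)/4`, and by Terras' theorem the parities are independent and fair, also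
inside every `T`-invariant set of integers which has a density. The random system of these two maps has the
trap `[0,3]`; a negative state is contracted on average in the sense of a fourth root, so that it either escapes
to infinity or becomes tiny or falls into the trap. Tiny negative deviations are controlled for all time by a
Lyapunov function of the real system, outside a set of density `1/λ` (Ville's inequality). Escaped states
leave the integer orbit by at least `1/10`.
-/

set_option autoImplicit false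

namespace Pool.Agent.Results.MP_a247fa_nt.ExactShadowingLaw

open Filter Topology

/-- Chamberland's map. -/
noncomputable def f (x : ℝ) : ℝ := x + 1 / 4 - (2 * x + 1) / 4 * Real.cos (Real.pi * x)

/-- The `3x+1` map. -/
def T (n : ℕ) : ℕ := if n % 2 = 0 then n / 2 else (3 * n + 1) / 2

/-- `y` is a point of an attracting cycle of `f` contained in `(0,∞)`. -/
def AttractingPoint (y : ℝ) : Prop :=
  0 < y ∧ 0 < Function.minimalPeriod f y ∧ |deriv (f^[Function.minimalPeriod f y]) y| < 1

/-- The orbit of `x` converges to the cycle of `y`. -/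
def Attracts (y x : ℝ) : Prop :=
  ∃ j : ℕ, Tendsto (fun k : ℕ => f^[k * Function.minimalPeriod f y + j] x) atTop (𝓝 y)

/-- The set of positive integers with the property `P` has natural density `d`. -/
def HasDensity (P : ℕ → Prop) (d : ℝ) : Prop :=
  Tendsto (fun N : ℕ => ({n : ℕ | 1 ≤ n ∧ n ≤ N ∧ P n}.ncard : ℝ) / N) atTop (𝓝 d)

/-! ### The random quadratic system -/

/-- The limit of an even step. -/
noncomputable def E (t : ℝ) : ℝ := (t + t ^ 2) / 4

/-- The limit of an odd step. -/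
noncomputable def O (t : ℝ) : ℝ := (9 * t - 3 * t ^ 2) / 4

/-- `esc K t` is the probability that `|t_K| > 5`, where `t_0 = t` and `t_(k+1)` is `E t_k` or `O t_k`, each
with probability `1/2` and independently. (Once `|t_k| > 5` this remains true, and `|t_k|` tends to infinity.) -/
noncomputable def esc : ℕ → ℝ → ℝ
  | 0, t => if 5 < |t| then 1 else 0
  | K + 1, t => (esc K (E t) + esc K (O t)) / 2

/-! ### Following and leaving -/

/-- The scaled deviation of `x` from `n`. -/
noncomputable def dev (n : ℕ) (x : ℝ) : ℝ := Real.pi ^ 2 * (2 * (n : ℝ) + 1) / 4 * (x - n)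

/-- The `f`-orbit of `x` follows the `T`-orbit of `n` for all time. -/
def Follows (n : ℕ) (x : ℝ) : Prop :=
  ∀ k : ℕ, |f^[k] x - (T^[k] n : ℕ)| ≤ 11 / (5 * (2 * ((T^[k] n : ℕ) : ℝ) + 1))

/-- The `f`-orbit of `x` gets at least `1/10` away from the `T`-orbit of `n`, when the latter is at least `√n`. -/
def Leaves (n : ℕ) (x : ℝ) : Prop :=
  ∃ k : ℕ, n ≤ (T^[k] n) ^ 2 ∧ 1 / 10 < |f^[k] x - (T^[k] n : ℕ)|

/-- The `f`-orbit of `x` follows the `T`-orbit of `n` until the latter is at most `y`. -/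
def FollowsDownTo (y n : ℕ) (x : ℝ) : Prop :=
  ∃ K : ℕ, T^[K] n ≤ y ∧ ∀ k ≤ K, |f^[k] x - (T^[k] n : ℕ)| ≤ 11 / (5 * (2 * ((T^[k] n : ℕ) : ℝ) + 1))

/-- The orbit of `x` can be attracted only by the two known cycles or by a cycle of `f` just above a cycle of
`T` which the orbit of `n` reaches; and if the orbit of `n` reaches `1` then the orbit of `x` converges to
`{1, 2}` or to `{a, f a}` or lands on a point of period two in `[1.02, 1.05]`. -/
def FateOver (a : ℝ) (n : ℕ) (x : ℝ) : Prop :=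
  (∀ y, AttractingPoint y → Attracts y x → (y = 1 ∨ y = 2 ∨ y = a ∨ y = f a) ∨
    ∃ m : ℕ, 3 ≤ m ∧ (∃ k, T^[k] n = m) ∧ T^[Function.minimalPeriod f y] m = m ∧
      (m : ℝ) ≤ y ∧ y ≤ m + 5 / (6 * (2 * (m : ℝ) + 1))) ∧
  ((∃ k, T^[k] n = 1) →
    Attracts 1 x ∨ Attracts a x ∨ ∃ K, f^[K] x ∈ Set.Icc (1.02 : ℝ) 1.05 ∧ f^[K + 2] x = f^[K] x)

/-- The law with leaving probability `H` for the points `x n`: inside every `T`-invariant set of integers with
bounded orbits and with a density, exactly the proportion `1 - H` of the `x n` follow, almost all of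
these have a fate over `n`, and all others leave, up to density zero; without any assumption on the orbits
of `T`, the proportion of the `x n` which follow the orbit of `n` down to `y` tends to `1 - H` as `y → ∞`. -/
def Law (a : ℝ) (x : ℕ → ℝ) (H : ℝ) : Prop :=
  (∀ (P : ℕ → Prop) (d : ℝ), (∀ n, P n ↔ P (T n)) → (∀ n, P n → ∃ M : ℕ, ∀ k, T^[k] n ≤ M) → HasDensity P d →
    HasDensity (fun n => P n ∧ Follows n (x n)) (d * (1 - H)) ∧
    HasDensity (fun n => P n ∧ Follows n (x n) ∧ FateOver a n (x n)) (d * (1 - H)) ∧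
    HasDensity (fun n => P n ∧ Leaves n (x n)) (d * H)) ∧
  (∀ ε : ℝ, 0 < ε → ∃ y₀ : ℕ, ∀ y, y₀ ≤ y → ∀ᶠ N : ℕ in atTop,
    (1 - H - ε) * N ≤ ({n : ℕ | 1 ≤ n ∧ n ≤ N ∧ FollowsDownTo y n (x n)}.ncard : ℝ) ∧
    ({n : ℕ | 1 ≤ n ∧ n ≤ N ∧ FollowsDownTo y n (x n)}.ncard : ℝ) ≤ (1 - H + ε) * N)

theorem esc_eq (K : ℕ) (t : ℝ) : esc K t = Pool.Agent.W2helper41.CH.avg Pool.Agent.W2helper41.CH.eI K t := by
  induction K generalizing t with
  | zero => rfl
  | succ K ih =>
    have e : esc (K + 1) t = (esc K (E t) + esc K (O t)) / 2 := rfl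
    rw [e, ih, ih, Pool.Agent.W2helper41.CH.avg_succ]; rfl

theorem law_of {a : ℝ} (ha : a ∈ Set.Icc (1.19 : ℝ) 1.196) (hga : Pool.Agent.H934R2.Ch.g a = a) {x : ℕ → ℝ}
    {u v : ℝ} (h : Pool.Agent.W2helper41.CH.Conv x u v) : Law a x (Pool.Agent.W2helper41.CH.hh u v) := by
  refine ⟨fun P d hP hPB hd => ⟨?_, ?_, ?_⟩, fun ε hε => ?_⟩
  · exact Pool.Agent.W2helper41.CH.seq_follow hP hPB hd h
  · exact Pool.Agent.W2helper41.CH.seq_fate ha hga hP hPB hd h
  · exact Pool.Agent.W2helper41.CH.seq_leave hP hPB hd h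
  · exact Pool.Agent.W2helper41.CH.unc_law h hε

/-- **Theorem.** -/
theorem result :
    ∃ a : ℝ, a ∈ Set.Icc (1.19 : ℝ) 1.196 ∧ f (f a) = a ∧
      (∀ y, y = 1 ∨ y = 2 ∨ y = a ∨ y = f a → AttractingPoint y) ∧
      ∃ h : ℝ → ℝ,
        -- the escape probabilities of the random quadratic system
        (∀ t, Tendsto (fun K => esc K t) atTop (𝓝 (h t))) ∧
        -- the law for all sequences with convergent scaled deviations
        (∀ (x : ℕ → ℝ) (u v : ℝ), Tendsto (fun m : ℕ => dev (2 * m) (x (2 * m))) atTop (𝓝 u) →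
          Tendsto (fun m : ℕ => dev (2 * m + 1) (x (2 * m + 1))) atTop (𝓝 v) →
          Law a x ((h (E u) + h (O v)) / 2)) ∧
        -- the points at the scaled distance `t`
        (∀ t : ℝ, Law a (fun n => n + 4 * t / (Real.pi ^ 2 * (2 * (n : ℝ) + 1))) (h t)) ∧
        -- the critical points
        (∃ c : ℕ → ℝ, (∀ n, 1 ≤ n → |c n - n| < 1 / 2 ∧ deriv f (c n) = 0 ∧
            ∀ c' : ℝ, |c' - n| < 1 / 2 → deriv f c' = 0 → c' = c n) ∧
          Law a c (h (-(1 / 16)) / 2) ∧ 1 / 64 ≤ h (-(1 / 16)) / 2 ∧ h (-(1 / 16)) / 2 ≤ 1 / 16) ∧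
        -- the integers which reach `1`
        (∃ δ : ℝ, 0 < δ ∧ (δ = 1 ↔ ∀ n : ℕ, 1 ≤ n → ∃ k : ℕ, T^[k] n = 1) ∧
          HasDensity (fun n => ∃ k : ℕ, T^[k] n = 1) δ) := by
  obtain ⟨a, ha, hga⟩ := Pool.Agent.H934R2.Ch.exists_a2
  refine ⟨a, ha, hga, fun y h => Pool.Agent.H934R2.Ch.known_attr ha hga h, Pool.Agent.W2helper41.CH.esc,
    fun t => ?_, fun x u v hu hv => law_of ha hga ⟨hu, hv⟩, fun t => ?_, ?_, ?_⟩
  · refine (Pool.Agent.W2helper41.CH.esc_tendsto t).congr fun K => ?_
    exact (esc_eq K t).symm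
  · have hdev : ∀ n : ℕ, Pool.Agent.W2helper41.CH.dev n
        ((n : ℝ) + 4 * t / (Real.pi ^ 2 * (2 * (n : ℝ) + 1))) = t := by
      intro n
      unfold Pool.Agent.W2helper41.CH.dev
      have hpi := Real.pi_pos
      field_simp
      ring
    have hc : Pool.Agent.W2helper41.CH.Conv (fun n : ℕ => (n : ℝ) + 4 * t / (Real.pi ^ 2 * (2 * (n : ℝ) + 1))) t t := by
      constructor
      · refine tendsto_const_nhds.congr fun m => ?_
        exact (hdev (2 * m)).symm
      · refine tendsto_const_nhds.congr fun m => ?_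
        exact (hdev (2 * m + 1)).symm
    have h1 := law_of ha hga hc
    have e : Pool.Agent.W2helper41.CH.hh t t = Pool.Agent.W2helper41.CH.esc t :=
      (Pool.Agent.W2helper41.CH.esc_step t).symm
    rw [e] at h1
    exact h1
  · have hex : ∀ n : ℕ, ∃ c : ℝ, 1 ≤ n → (|c - n| < 1 / 2 ∧ deriv f c = 0 ∧
        ∀ c' : ℝ, |c' - n| < 1 / 2 → deriv f c' = 0 → c' = c) := by
      intro n
      by_cases hn : 1 ≤ n
      · obtain ⟨c, ⟨h1, h2⟩, h3⟩ := Pool.Agent.Y296.CB.crit_unique hn
        exact ⟨c, fun _ => ⟨h1, h2, fun c' h4 h5 => h3 c' ⟨h4, h5⟩⟩⟩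
      · exact ⟨0, fun h => absurd h hn⟩
    choose c hc using hex
    refine ⟨c, hc, ?_, ?_, ?_⟩
    · have h1 := law_of ha hga (Pool.Agent.W2helper41.CH.crit_conv (c := c)
        (fun n hn => ⟨(hc n hn).1, (hc n hn).2.1⟩))
      rw [Pool.Agent.W2helper41.CH.hh_crit] at h1
      exact h1
    · have := Pool.Agent.W2helper41.CH.esc_lower
      linarith
    · have := Pool.Agent.W2helper41.CH.esc_upper
      linarith
  · obtain ⟨δ, h0, -, h2, h3, -⟩ := Pool.Agent.H499R2.LT.law_one
    exact ⟨δ, h0, h2, h3⟩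

end Pool.Agent.Results.MP_a247fa_nt.ExactShadowingLaw
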